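import Pool.Agent.Lib.MP_89ce39_al.Proof

/-!
Every group is isomorphic to a maximal subgroup of the free projection-generated regular
star-semigroup `PG(P)` for some projection algebra `P = P(S)`.
-/

set_option autoImplicit false

universe u

namespace Pool.Agent.Results.MP_89ce39_al.EveryGroup

open Pool.Agent.Lib.MP_89ce39_al

/-- For every group `G` there are a regular star-semigroup `S` and an idempotent `e` of `PG(P(S))`
such that `G` is isomorphic to the maximal subgroup of `PG(P(S))` at `e`. -/
theorem result (G : Type u) [Group G] :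
    ∃ (S : Type u) (_ : RegularStarSemigroup S) (e : PG S),
      e * e = e ∧
      ∃ φ : G ≃ maximalSubgroup e,
        ∀ g h : G, (φ (g * h) : PG S) = (φ g : PG S) * (φ h : PG S) := by
  refine ⟨Model G, inferInstance, xV 0, xV_idem 0, ?_⟩
  refine ⟨Equiv.ofBijective
    (fun g => ⟨Psi g, (mem_maximalSubgroup_iff (Psi g)).2 ⟨g, rfl⟩⟩) ⟨?_, ?_⟩, ?_⟩
  · intro g h hgh
    exact Psi_injective (congrArg Subtype.val hgh)
  · rintro ⟨a, ha⟩
    obtain ⟨g, rfl⟩ := (mem_maximalSubgroup_iff a).1 ha
    exact ⟨g, rfl⟩
  · intro g h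
    exact (Psi_mul g h).symm

end Pool.Agent.Results.MP_89ce39_al.EveryGroup
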